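import Pool.Agent.TH829.Kim.Defs

/-!
# Murre's conjecture (B) and finite-dimensional motives: definitions
-/

set_option autoImplicit false

open CategoryTheory AlgebraicGeometry

universe u v w

namespace Pool.Agent.J4H14.MU

open Pool.Agent.H914 Pool.Agent.H914.VarClass Pool.Agent.H914.VarClass.Obj Pool.Agent.W492.BB
  Pool.Agent.W550.Corr Pool.Agent.TH133 Pool.Agent.TH829.Kim

variable {k : Type u} [Field k] {𝒱 : VarClass k}

/-- `power X n` is the power `X^(n+1)`. -/
noncomputable def power (X : 𝒱.Obj) : ℕ → 𝒱.Obj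
  | 0 => X
  | n + 1 => X.prod (power X n)

/-- The Chow motive of `X` is finite-dimensional in the sense of Kimura and O'Sullivan: there is an
idempotent `e ∈ CH^d(X × X)`, `d = dim X`, such that some exterior power of the motive `(X, e)` and
some symmetric power of `(X, 1 - e)` vanish. -/
def FiniteDimensional (C : TheoryData.{u, v, 0} 𝒱 ℚ) (X : 𝒱.Obj) : Prop :=
  ∃ e : C.A (X.prod X), C.Deg X.dim e ∧ C.comp e e = e ∧
    (∃ n : ℕ, 1 ≤ n ∧ ∀ (W : 𝒱.Obj) (x y : Fin n → (W ⟶ X)), altPower C e x y = 0) ∧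
    (∃ n : ℕ, 1 ≤ n ∧ ∀ (W : 𝒱.Obj) (x y : Fin n → (W ⟶ X)), symPower C (dg C X - e) x y = 0)

/-- The first half of Murre's conjecture (B) for one decomposition `π` of `X`:
`F^0 CH^i(X) = CH^i(X)` for all `i`. -/
def FirstHalf (C : TheoryData.{u, v, 0} 𝒱 ℚ) (X : 𝒱.Obj) (π : ℕ → C.A (X.prod X)) : Prop :=
  ∀ i : ℕ, ckFil C π i 0 = C.gr X i

/-- The second half of Murre's conjecture (B) for one decomposition `π` of `X`:
`F^(i+1) CH^i(X) = 0` for all `i`. -/
def SecondHalf (C : TheoryData.{u, v, 0} 𝒱 ℚ) (X : 𝒱.Obj) (π : ℕ → C.A (X.prod X)) : Prop :=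
  ∀ i : ℕ, ckFil C π i (i + 1) = ⊥

variable {C : TheoryData.{u, v, 0} 𝒱 ℚ} {K : Type w} [Field K] (H : WeilTheoryData.{u, v, w} C K)

/-- Murre's conjecture (D) for one decomposition `π` of `X`: `F^1 CH^i(X)` is the group of
homologically trivial cycles, for all `i`. -/
def ConjD (X : 𝒱.Obj) (π : ℕ → C.A (X.prod X)) : Prop :=
  ∀ (i : ℕ) (x : C.A X), x ∈ ckFil C π i 1 ↔ C.Deg i x ∧ H.cl x = 0

/-- `X` has a Chow-Kunneth decomposition. -/
def HasCK (X : 𝒱.Obj) : Prop := ∃ π, IsCK H X π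

/-- The property `S` holds for ALL Chow-Kunneth decompositions of all members of the class. -/
def AllDecompositions (S : ∀ X : 𝒱.Obj, (ℕ → C.A (X.prod X)) → Prop) : Prop :=
  ∀ X π, IsCK H X π → S X π

/-- Each member of the class with a Chow-Kunneth decomposition is finite-dimensional, and the property
`S` holds for ONE of its Chow-Kunneth decompositions. -/
def FiniteAndOne (S : ∀ X : 𝒱.Obj, (ℕ → C.A (X.prod X)) → Prop) : Prop :=
  ∀ X, HasCK H X → FiniteDimensional C X ∧ ∃ π, IsCK H X π ∧ S X π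

/-- On `H^i(X)`, the correspondence `g` undoes the correspondence `f`. -/
def Undoes {X : 𝒱.Obj} (f g : C.A (X.prod X)) (i : ℕ) : Prop :=
  ∀ a : H.A X, H.Deg i a → H.act (H.cl g) (H.act (H.cl f) a) = a

/-- The Lefschetz standard conjecture for `X`: for `n ≤ d = dim X` there are algebraic
correspondences `f` (for instance the intersection with the power `D^(d-n)` of an ample divisor
class) and `g` inducing isomorphisms `H^n(X) → H^(2d-n)(X)` and `H^(2d-n)(X) → H^n(X)` which are
inverse to each other. -/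
def Lefschetz (X : 𝒱.Obj) : Prop :=
  ∀ n ≤ X.dim, ∃ f g : C.A (X.prod X), C.Deg (2 * X.dim - n : ℕ) f ∧ C.Deg n g ∧
    Undoes H f g n ∧ Undoes H g f (2 * X.dim - n)

/-- One half of Murre's conjecture (B) for all Chow-Kunneth decompositions of `P × P`, in the
codimension `dim P` only. -/
def HalfOfB (P : 𝒱.Obj) : Prop :=
  (∀ Q, IsCK H (P.prod P) Q → ckFil C Q P.dim 0 = C.gr (P.prod P) P.dim) ∨
    ∀ Q, IsCK H (P.prod P) Q → ckFil C Q P.dim (P.dim + 1) = ⊥

/-- The class of the diagonal of `X` is the sum of `m` products `u_i × v_i` of homogeneous classes of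
even degrees and of `m` products `u'_i × v'_i` of homogeneous classes of odd degrees (some of them
may be zero). By the Kunneth formula this is the case if `m` is at least the dimensions of the even
and of the odd part of the cohomology of `X`. -/
def BettiAtMost (X : 𝒱.Obj) (m : ℕ) : Prop :=
  ∃ (p p' : Fin m → ℤ) (u v u' v' : Fin m → H.A X),
    (∀ i, Even (p i) ∧ H.Deg (p i) (u i) ∧ H.Deg (2 * X.dim - p i) (v i)) ∧
    (∀ i, Odd (p' i) ∧ H.Deg (p' i) (u' i) ∧ H.Deg (2 * X.dim - p' i) (v' i)) ∧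
    H.cl (dg C X) = ∑ i, H.ext (u i) (v i) + ∑ i, H.ext (u' i) (v' i)

end Pool.Agent.J4H14.MU
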