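import Pool.Agent.J4H14.MB.D
import Pool.Agent.J4H14.MU.Defs

/-!
# Homologically trivial idempotents contained in a member of a decomposition
-/

set_option autoImplicit false

open CategoryTheory AlgebraicGeometry

universe u v w

namespace Pool.Agent.J4H14.MU

open Pool.Agent.H914 Pool.Agent.H914.VarClass Pool.Agent.H914.VarClass.Obj Pool.Agent.W492.BB
  Pool.Agent.W550.Corr Pool.Agent.TH133 Pool.Agent.Y107 Pool.Agent.Q73.LS Pool.Agent.J4H14.MB

set_option linter.unusedSectionVars false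

variable {k : Type u} [Field k] {𝒱 : VarClass k} {C : TheoryData.{u, v, 0} 𝒱 ℚ}
  [hC : IsChowProj C] {K : Type w} [Field K]
  {H : WeilTheoryData.{u, v, w} C K} [hH : IsWeilProj H] {P : 𝒱.Obj}

/-- The external product as an element of the ring of correspondences. -/
noncomputable def tq (a b : C.A (P.prod P)) : Cor C (P.prod P) := tens C a b

/-- The idempotent `ε^t × ε` on `P × P`. -/
noncomputable def sq (ε : C.A (P.prod P)) : Cor C (P.prod P) := tq (tp C ε) ε

include hC

lemma tq_mul (a b c d : C.A (P.prod P)) :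
    (tq a b : Cor C (P.prod P)) * tq c d = tq (C.comp c a) (C.comp d b) :=
  tens_comp' _ _ _ _

lemma tq_zero (a : C.A (P.prod P)) : (tq a 0 : Cor C (P.prod P)) = 0 := tens_zero_right _

lemma sq_mem {ε : C.A (P.prod P)} (h : ε ∈ C.gr (P.prod P) P.dim) : sq ε ∈ cor0 C (P.prod P) := by
  have h1 := tens_mem C (tp_mem C h) h
  have e : ((P.prod P).dim : ℤ) = P.dim + P.dim := by rw [dim_prod]; push_cast; ring
  change tens C (tp C ε) ε ∈ C.gr _ ((P.prod P).dim : ℤ)
  rw [e]
  exact h1

lemma act_sq (ε x : C.A (P.prod P)) :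
    actC C (P.prod P) (sq ε) x = C.comp (C.comp ε x) ε := by
  have h1 := act_tens C (ch_comm C) (tp C ε) ε x
  rw [tp_tp] at h1
  exact h1

include hH

lemma sub_sq {ρ : ℕ → C.A (P.prod P)} (hρ : IsCK H P ρ) {i : ℕ} (hi : i ≤ 2 * P.dim)
    {ε : C.A (P.prod P)} (h : Sub (X := P) H ρ i ε) :
    Sub (X := P.prod P) H (prodCK C (dualCK C ρ) ρ) (2 * P.dim) (sq ε) := by
  have hid : C.comp ε ε = ε := h.idem
  have hL : ∀ b, C.comp (ρ b) ε = if b = i then ε else 0 := fun b => h.mulR hρ b
  have hR : ∀ b, C.comp ε (ρ b) = if b = i then ε else 0 := fun b => h.mulL hρ b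
  have hdual : ∀ b, b ≤ 2 * P.dim → dualCK C ρ (2 * P.dim - b) = tp C (ρ b) := by
    intro b hb
    unfold dualCK
    rw [if_pos (by omega)]
    congr 2
    omega
  have hQ : (prodCK C (dualCK C ρ) ρ (2 * P.dim) : Cor C (P.prod P)) =
      ∑ a ∈ Finset.range (2 * P.dim + 1), tq (dualCK C ρ a) (ρ (2 * P.dim - a)) := rfl
  refine ⟨sq_mem h.mem, ?_, ?_, ?_, ?_⟩
  · unfold sq
    rw [tq_mul, ← tp_comp C (ch_comm C), hid]
  · rw [hQ, Finset.sum_mul]
    have h1 : ∀ a ∈ Finset.range (2 * P.dim + 1),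
        tq (dualCK C ρ a) (ρ (2 * P.dim - a)) * sq ε = if a = 2 * P.dim - i then sq ε else 0 := by
      intro a ha
      rw [Finset.mem_range] at ha
      unfold sq
      rw [tq_mul, hR]
      by_cases h2 : a = 2 * P.dim - i
      · subst h2
        rw [if_pos rfl, if_pos (by omega), hdual i hi, ← tp_comp C (ch_comm C), hL, if_pos rfl]
      · rw [if_neg h2, if_neg (by omega), tq_zero]
    rw [Finset.sum_congr rfl h1, Finset.sum_ite_eq' _ (2 * P.dim - i),
      if_pos (Finset.mem_range.2 (by omega))]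
  · rw [hQ, Finset.mul_sum]
    have h1 : ∀ a ∈ Finset.range (2 * P.dim + 1),
        sq ε * tq (dualCK C ρ a) (ρ (2 * P.dim - a)) = if a = 2 * P.dim - i then sq ε else 0 := by
      intro a ha
      rw [Finset.mem_range] at ha
      unfold sq
      rw [tq_mul, hL]
      by_cases h2 : a = 2 * P.dim - i
      · subst h2
        rw [if_pos rfl, if_pos (by omega), hdual i hi, ← tp_comp C (ch_comm C), hR, if_pos rfl]
      · rw [if_neg h2, if_neg (by omega), tq_zero]
    rw [Finset.sum_congr rfl h1, Finset.sum_ite_eq' _ (2 * P.dim - i),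
      if_pos (Finset.mem_range.2 (by omega))]
  · have h1 : H.cl ε = 0 := h.cl
    change H.cl (tens C (tp C ε) ε) = 0
    rw [cl_tens, h1, tens, map_zero, mul_zero]

/-- Homologically trivial idempotents contained in a member of a decomposition vanish. -/
theorem eq_zero_of_sub (hB : HalfOfB H P) {ρ : ℕ → C.A (P.prod P)} (hρ : IsCK H P ρ) {i : ℕ}
    {ε : C.A (P.prod P)} (h : Sub (X := P) H ρ i ε) : ε = 0 := by
  have hid : C.comp ε ε = ε := h.idem
  rcases Nat.lt_or_ge (2 * P.dim) i with hi | hi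
  · have h1 : C.comp ε (ρ i) = ε := h.left
    rw [← h1, hρ.out i hi, comp_zero]
  rcases Nat.eq_zero_or_pos P.dim with hd | hd
  · have h1 : ε ∈ C.gr (P.prod P) P.dim := h.mem
    rw [hd] at h1
    exact eq_zero_of_deg0 (C := C) (H := H) h1 h.cl
  have hQ := hρ.dual.prod hρ
  have hT := sub_sq hρ hi h
  have hε : actC C (P.prod P) (sq ε) ε = ε := by
    rw [act_sq, hid, hid]
  have hz : ε ∈ C.gr (P.prod P) P.dim := h.mem
  rcases hB with hB | hB
  · have hb : 2 * (P.prod P).dim ≠ 2 * P.dim := by rw [dim_prod]; omega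
    have hQ' := isCK_mv hQ (by rw [dim_prod]; omega) le_rfl hb hT
    have h2 := act_zero_of_B0 hQ' (hB _ hQ') (i := 2 * (P.prod P).dim) (by rw [dim_prod]; omega) hz
    have h3 := hT.act_mv hQ hb (2 * (P.prod P).dim) ε
    rw [hε, if_pos rfl] at h3
    rw [h3] at h2
    exact h2
  · have hb : 0 ≠ 2 * P.dim := by omega
    have hQ' := isCK_mv hQ (by rw [dim_prod]; omega) (Nat.zero_le _) hb hT
    have h2 := act_zero_of_B1 hQ' (hB _ hQ') (i := 0) hd hz
    have h3 := hT.act_mv hQ hb 0 ε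
    rw [hε, if_pos rfl] at h3
    rw [h3] at h2
    exact h2

end Pool.Agent.J4H14.MU
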