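import Pool.Agent.Y110.Kf
import Pool.Agent.J4H14.MU.B

/-!
# Powers: the product decomposition and permutations of the factors
-/

set_option autoImplicit false

open CategoryTheory AlgebraicGeometry

universe u v w

namespace Pool.Agent.J4H14.MU

open Pool.Agent.H914 Pool.Agent.H914.VarClass Pool.Agent.H914.VarClass.Obj Pool.Agent.W492.BB
  Pool.Agent.W550.Corr Pool.Agent.TH133 Pool.Agent.TH829.Prime Pool.Agent.TH829.Kim
  Pool.Agent.Y110

set_option linter.unusedSectionVars false

/-- An element which commutes with `∑ 2^i P_i` commutes with the orthogonal idempotents `P_i`. -/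
lemma commute_of_sum {R : Type*} [Ring R] [Algebra ℚ R] {N : ℕ} {P : ℕ → R}
    (hP : ∀ i j, P i * P j = if i = j then P i else 0) (h1 : ∑ i ∈ Finset.range N, P i = 1)
    (hout : ∀ i, N ≤ i → P i = 0) {x : R}
    (hx : x * (∑ i ∈ Finset.range N, (2 : ℚ) ^ i • P i) =
      (∑ i ∈ Finset.range N, (2 : ℚ) ^ i • P i) * x) (i : ℕ) : x * P i = P i * x := by
  have hl : ∀ a, P a * (∑ i ∈ Finset.range N, (2 : ℚ) ^ i • P i) = (2 : ℚ) ^ a • P a := by
    intro a
    rw [Finset.mul_sum]
    simp_rw [mul_smul_comm, hP]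
    by_cases ha : a < N
    · rw [Finset.sum_eq_single a]
      · rw [if_pos rfl]
      · intro b _ hb
        rw [if_neg (Ne.symm hb), smul_zero]
      · intro h
        exact absurd (Finset.mem_range.2 ha) h
    · rw [hout a (by omega)]
      rw [smul_zero]
      exact Finset.sum_eq_zero fun b _ => by split_ifs <;> exact smul_zero _
  have hr : ∀ a, (∑ i ∈ Finset.range N, (2 : ℚ) ^ i • P i) * P a = (2 : ℚ) ^ a • P a := by
    intro a
    rw [Finset.sum_mul]
    simp_rw [smul_mul_assoc, hP]
    by_cases ha : a < N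
    · rw [Finset.sum_eq_single a]
      · rw [if_pos rfl]
      · intro b _ hb
        rw [if_neg hb, smul_zero]
      · intro h
        exact absurd (Finset.mem_range.2 ha) h
    · rw [hout a (by omega), smul_zero]
      refine Finset.sum_eq_zero fun b hb => ?_
      rw [Finset.mem_range] at hb
      rw [if_neg (by omega), smul_zero]
  have hne : ∀ a b, a ≠ b → P a * x * P b = 0 := by
    intro a b hab
    have e1 : P a * (x * (∑ i ∈ Finset.range N, (2 : ℚ) ^ i • P i)) * P b =
        (2 : ℚ) ^ b • (P a * x * P b) := by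
      rw [mul_assoc, mul_assoc, hr, mul_smul_comm, mul_smul_comm, ← mul_assoc]
    have e2 : P a * (x * (∑ i ∈ Finset.range N, (2 : ℚ) ^ i • P i)) * P b =
        (2 : ℚ) ^ a • (P a * x * P b) := by
      rw [hx, ← mul_assoc (P a), hl, smul_mul_assoc, smul_mul_assoc]
    have e3 : ((2 : ℚ) ^ b - (2 : ℚ) ^ a) • (P a * x * P b) = 0 := by
      rw [sub_smul, ← e1, ← e2, sub_self]
    refine (smul_eq_zero.1 e3).resolve_left ?_
    intro h
    exact hab (pow_right_injective₀ (by norm_num : (0 : ℚ) < 2) (by norm_num)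
      (sub_eq_zero.1 h)).symm
  have e1 : x * P i = P i * x * P i := by
    conv_lhs => rw [← one_mul (x * P i), ← h1, Finset.sum_mul]
    rw [Finset.sum_eq_single i]
    · rw [mul_assoc]
    · intro b _ hb
      rw [← mul_assoc]
      exact hne b i hb
    · intro h
      rw [hout i (by simpa using h), zero_mul]
  have e2 : P i * x = P i * x * P i := by
    conv_lhs => rw [← mul_one (P i * x), ← h1, Finset.mul_sum]
    rw [Finset.sum_eq_single i]
    · intro b _ hb
      exact hne i b (Ne.symm hb)
    · intro h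
      rw [hout i (by simpa using h), mul_zero]
  exact e1.trans e2.symm

variable {k : Type u} [Field k] {𝒱 : VarClass k}

/-- The projections of the power. -/
noncomputable def prs (X : 𝒱.Obj) : (n : ℕ) → Fin (n + 1) → (power X n ⟶ X)
  | 0 => fun _ => 𝟙 X
  | n + 1 => consPr (prs X n)

lemma isPow_prs (X : 𝒱.Obj) (n : ℕ) : IsPow (prs X n) := by
  induction n with
  | zero => exact isPow_one X
  | succ n ih => exact ih.succ

lemma dim_power (X : 𝒱.Obj) (n : ℕ) : (power X n).dim = (n + 1) * X.dim := by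
  induction n with
  | zero => change X.dim = _; ring
  | succ n ih => change (X.prod (power X n)).dim = _; rw [dim_prod, ih]; ring

variable {C : TheoryData.{u, v, 0} 𝒱 ℚ} [hC : IsChowProj C] {K : Type w} [Field K]
  {H : WeilTheoryData.{u, v, w} C K} [hH : IsWeilProj H] {X Z : 𝒱.Obj}

/-- The product decomposition of the power. -/
noncomputable def powCK (π : ℕ → C.A (X.prod X)) :
    (n : ℕ) → ℕ → C.A ((power X n).prod (power X n))
  | 0 => π
  | n + 1 => prodCK C π (powCK π n)

/-- The weighted sum of a family. -/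
noncomputable def wsum (π : ℕ → C.A (X.prod X)) : C.A (X.prod X) :=
  ∑ i ∈ Finset.range (2 * X.dim + 1), (2 : ℚ) ^ i • π i

include hC

lemma epow_prs_zero (e : C.A (X.prod X)) : epow (prs X 0) e = e := by
  unfold epow
  rw [Fin.prod_univ_succ, Fin.prod_univ_zero, mul_one]
  change ev e (fst X X ≫ 𝟙 X) (snd X X ≫ 𝟙 X) = e
  rw [Category.comp_id, Category.comp_id, ev_univ]

lemma epow_prs_succ (n : ℕ) (e : C.A (X.prod X)) :
    epow (prs X (n + 1)) e = tens C e (epow (prs X n) e) := by
  change epow (consPr (prs X n)) e = tens C e (epow (prs X n) e)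
  unfold epow
  rw [Fin.prod_univ_succ, tens, map_prod]
  congr 1
  apply Finset.prod_congr rfl
  intro i _
  rw [pull_ev, prodMap_fst_assoc, prodMap_snd_assoc, consPr_succ]

lemma epow_comp (n : ℕ) (a b : C.A (X.prod X)) :
    C.comp (epow (prs X n) a) (epow (prs X n) b) = epow (prs X n) (C.comp a b) := by
  induction n with
  | zero => rw [epow_prs_zero, epow_prs_zero, epow_prs_zero]; rfl
  | succ n ih =>
    rw [epow_prs_succ, epow_prs_succ, epow_prs_succ, ← ih]
    exact tens_comp' _ _ _ _

include hH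

lemma isCK_pow {π : ℕ → C.A (X.prod X)} (hπ : IsCK H X π) (n : ℕ) :
    IsCK H (power X n) (powCK π n) := by
  induction n with
  | zero => exact hπ
  | succ n ih => exact hπ.prod ih

lemma wsum_of_le {π : ℕ → C.A (X.prod X)} (h : IsCK H X π) {N : ℕ} (hN : 2 * X.dim + 1 ≤ N) :
    wsum π = ∑ i ∈ Finset.range N, (2 : ℚ) ^ i • π i := by
  unfold wsum
  apply Finset.sum_subset
  · intro i hi
    rw [Finset.mem_range] at *
    omega
  · intro i _ hi
    rw [Finset.mem_range] at hi
    rw [h.out i (by omega), smul_zero]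

lemma wsum_prod {π : ℕ → C.A (X.prod X)} {ρ : ℕ → C.A (Z.prod Z)} (h : IsCK H X π)
    (h' : IsCK H Z ρ) : wsum (prodCK C π ρ) = tens C (wsum π) (wsum ρ) := by
  rw [wsum_of_le h (N := 2 * (X.prod Z).dim + 1) (by rw [dim_prod]; omega),
    wsum_of_le h' (N := 2 * (X.prod Z).dim + 1) (by rw [dim_prod]; omega)]
  unfold wsum prodCK
  have h1 : ∀ n ∈ Finset.range (2 * (X.prod Z).dim + 1),
      ((2 : ℚ) ^ n • ∑ i ∈ Finset.range (n + 1), tens C (π i) (ρ (n - i))) =
        ∑ i ∈ Finset.range (n + 1), tensL ((2 : ℚ) ^ i • π i) ((2 : ℚ) ^ (n - i) • ρ (n - i)) := by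
    intro n _
    rw [Finset.smul_sum]
    apply Finset.sum_congr rfl
    intro i hi
    rw [Finset.mem_range] at hi
    rw [map_smul, map_smul, LinearMap.smul_apply, smul_smul, ← pow_add,
      show n - i + i = n by omega, tensL_apply]
  rw [Finset.sum_congr rfl h1,
    sum_sum_range (fun i j => tensL ((2 : ℚ) ^ i • π i) ((2 : ℚ) ^ j • ρ j)), ← tensL_apply,
    map_sum tensL, LinearMap.sum_apply]
  apply Finset.sum_congr rfl
  intro i hi
  rw [map_sum]
  apply Finset.sum_subset
  · intro j hj
    rw [Finset.mem_range] at *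
    omega
  · intro j hj hj'
    rw [Finset.mem_range] at *
    rw [dim_prod] at *
    by_cases h1 : 2 * X.dim < i
    · rw [h.out _ h1, smul_zero, map_zero, LinearMap.zero_apply]
    · rw [h'.out _ (by omega), smul_zero, map_zero]

lemma epow_wsum {π : ℕ → C.A (X.prod X)} (hπ : IsCK H X π) (n : ℕ) :
    epow (prs X n) (wsum π) = wsum (powCK π n) := by
  induction n with
  | zero => exact epow_prs_zero _
  | succ n ih =>
    rw [epow_prs_succ, ih]
    exact (wsum_prod hπ (isCK_pow hπ n)).symm

end Pool.Agent.J4H14.MU
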