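import Pool.Agent.J4H14.MU.A

/-!
# One half of Murre's conjecture (B) implies finite-dimensionality
-/

set_option autoImplicit false

open CategoryTheory AlgebraicGeometry

universe u v w

namespace Pool.Agent.J4H14.MU

open Pool.Agent.H914 Pool.Agent.H914.VarClass Pool.Agent.H914.VarClass.Obj Pool.Agent.W492.BB
  Pool.Agent.W550.Corr Pool.Agent.TH133 Pool.Agent.TH829.Prime Pool.Agent.TH829.Kim
  Pool.Agent.Y110

open Pool.Agent.J4H14.MB (Sub)

set_option linter.unusedSectionVars false

variable {k : Type u} [Field k] {𝒱 : VarClass k} {C : TheoryData.{u, v, 0} 𝒱 ℚ}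
  [hC : IsChowProj C] {K : Type w} [Field K]
  {H : WeilTheoryData.{u, v, w} C K} [hH : IsWeilProj H] {X P : 𝒱.Obj}

include hC hH

lemma act_parPart_of_not {π : ℕ → C.A (X.prod X)} (hπ : IsCK H X π) (s : Bool) {q : ℤ} {a : H.A X}
    (ha : a ∈ H.gr X q) (h : ¬ Par s q) : H.act (H.cl (parPart s π)) a = 0 := by
  rw [act_parPart hπ s ha, if_neg h]

lemma kunneth_parPart {π : ℕ → C.A (X.prod X)} (hπ : IsCK H X π) {m : ℕ}
    (hm : BettiAtMost H X m) (s : Bool) :
    ∃ (p q : Fin m → ℤ) (u v : Fin m → H.A X), (∀ i, u i ∈ H.gr X (p i)) ∧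
      (∀ i, v i ∈ H.gr X (q i)) ∧ (∀ i, Par s (p i)) ∧ (∀ i, Par s (q i)) ∧
      H.cl (parPart s π) = ∑ i, H.ext (u i) (v i) := by
  obtain ⟨p, p', u, v, u', v', hu, hu', huv⟩ := hm
  have h1 : H.cl (parPart s π) = H.comp (H.cl (dg C X)) (H.cl (parPart s π)) := by
    rw [cl_dg, dg_comp]
  rw [h1, huv, add_comp, sum_comp, sum_comp]
  simp_rw [comp_ext_act]
  have hev : ∀ i, Even (2 * (X.dim : ℤ) - p i) := fun i => (even_two_mul _).sub (hu i).1
  have hod : ∀ i, Odd (2 * (X.dim : ℤ) - p' i) := fun i => (even_two_mul _).sub_odd (hu' i).1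
  cases s
  · refine ⟨p', fun i => 2 * X.dim - p' i, u', v', fun i => (hu' i).2.1, fun i => (hu' i).2.2,
      fun i => ?_, fun i => ?_, ?_⟩
    · simpa [Par] using (hu' i).1
    · simpa [Par] using hod i
    · have e1 : ∀ i, H.act (H.cl (parPart false π)) (v i) = 0 := fun i =>
        act_parPart_of_not hπ false (hu i).2.2 (by simpa [Par] using hev i)
      have e2 : ∀ i, H.act (H.cl (parPart false π)) (v' i) = v' i := fun i => by
        rw [act_parPart hπ false (hu' i).2.2, if_pos (by simpa [Par] using hod i)]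
      simp_rw [e1, e2, TheoryData.ext_zero_right]
      rw [Finset.sum_const_zero, zero_add]
  · refine ⟨p, fun i => 2 * X.dim - p i, u, v, fun i => (hu i).2.1, fun i => (hu i).2.2,
      fun i => ?_, fun i => ?_, ?_⟩
    · simpa [Par] using (hu i).1
    · simpa [Par] using hev i
    · have e1 : ∀ i, H.act (H.cl (parPart true π)) (v i) = v i := fun i => by
        rw [act_parPart hπ true (hu i).2.2, if_pos (by simpa [Par] using hev i)]
      have e2 : ∀ i, H.act (H.cl (parPart true π)) (v' i) = 0 := fun i =>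
        act_parPart_of_not hπ true (hu' i).2.2 (by simpa [Par] using hod i)
      simp_rw [e1, e2, TheoryData.ext_zero_right]
      rw [Finset.sum_const_zero, add_zero]

lemma parPart_comm {π : ℕ → Cor C X} (hπ : IsCK H X π) (s : Bool) {W E : Cor C X}
    (hW : W = wsum (X := X) π) (hE : E = parPart (X := X) s π) : W * E = E * W := by
  classical
  have h1 : ∀ i j, Commute (π i) (π j) := by
    intro i j
    rw [Commute, SemiconjBy, hπ.mul_eq, hπ.mul_eq]
    by_cases h : i = j
    · rw [if_pos h, if_pos h.symm, h]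
    · rw [if_neg h, if_neg (Ne.symm h)]
  have h2 : W = ∑ i ∈ Finset.range (2 * X.dim + 1), (2 : ℚ) ^ i • π i := hW
  have h3 : E = ∑ i ∈ (Finset.range (2 * X.dim + 1)).filter (fun i : ℕ => Par s i), π i := by
    rw [hE]
    unfold parPart
    rfl
  rw [h2, h3]
  exact Commute.sum_left _ _ _ fun i _ => Commute.sum_right _ _ _ fun j _ => (h1 i j).smul_left _

/-- The determinant of a part of the decomposition commutes with the product decomposition. -/
lemma gd_comm {π : ℕ → C.A (X.prod X)} (hπ : IsCK H X π) (s : Bool) (n : ℕ)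
    {D : Cor C (power X n)}
    (hD : D = gd s (fun _ _ => parPart s π) (fun i => fst (power X n) (power X n) ≫ prs X n i)
      (fun i => snd (power X n) (power X n) ≫ prs X n i)) {ρ : ℕ → Cor C (power X n)}
    (hr : ρ = powCK π n) (i : ℕ) : D * ρ i = ρ i * D := by
  have h := isPow_prs X n
  have hρ : IsCK H (power X n) ρ := by
    rw [hr]
    exact isCK_pow hπ n
  let G : Equiv.Perm (Fin (n + 1)) → Cor C (power X n) := fun σ => h.G σ
  let E : Cor C (power X n) := epow (prs X n) (parPart s π)
  let W : Cor C (power X n) := ∑ i ∈ Finset.range (2 * (power X n).dim + 1), (2 : ℚ) ^ i • ρ i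
  have hW : W = epow (prs X n) (wsum π) := by
    rw [epow_wsum hπ n]
    simp only [W, hr]
    rfl
  have h1 : D = ∑ σ : Equiv.Perm (Fin (n + 1)), wt s σ • (G σ * E) := by
    rw [hD, gd]
    apply Finset.sum_congr rfl
    intro σ _
    have h2 : G σ * E = (∏ i, ev (parPart s π) (fst (power X n) (power X n) ≫ prs X n i)
        (snd (power X n) (power X n) ≫ prs X n (σ i)) : C.A ((power X n).prod (power X n))) :=
      h.G_mul_epow σ (parPart s π)
    rw [h2]
    rfl
  have hGW : ∀ σ, Commute (G σ) W := by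
    intro σ
    have h2 : C.comp (h.G σ) (epow (prs X n) (wsum π)) = C.comp (epow (prs X n) (wsum π)) (h.G σ) :=
      h.epow_mul_G σ (wsum π)
    rw [hW]
    exact h2.symm
  have hEW : Commute E W := by
    have h2 : C.comp (parPart s π) (wsum π) = C.comp (wsum π) (parPart s π) :=
      (parPart_comm (X := X) hπ s rfl rfl)
    have h3 := epow_comp n (wsum π) (parPart s π)
    have h4 := epow_comp n (parPart s π) (wsum π)
    rw [h2, ← h3] at h4
    rw [hW]
    exact h4.symm
  have hDW : D * W = W * D := by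
    rw [h1]
    exact Commute.sum_left _ _ _ fun σ _ => ((hGW σ).mul_left hEW).smul_left _
  exact commute_of_sum (N := 2 * (power X n).dim + 1) (fun i j => IsCK.mul_eq hρ i j)
    (IsCK.sum_eq hρ) (fun i hi => hρ.out i (by omega)) hDW i

/-- A homologically trivial idempotent which commutes with a decomposition of `P` vanishes if one
half of (B) holds for `P × P`. -/
lemma eq_zero_of_comm (hB : HalfOfB H P) {ρ : ℕ → Cor C P} (hρ : IsCK H P ρ) {e : Cor C P}
    (he : e ∈ cor0 C P) (hee : e * e = e) (hcl : H.cl (X := P.prod P) e = 0)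
    (hc : ∀ i, e * ρ i = ρ i * e) : e = 0 := by
  have hρρ : ∀ i, ρ i * ρ i = ρ i := fun i => by rw [hρ.mul_eq, if_pos rfl]
  have h1 : ∀ i, e * ρ i = 0 := by
    intro i
    refine eq_zero_of_sub hB hρ (i := i) ⟨(cor0 C P).mul_mem he (hρ.deg i), ?_, ?_, ?_, ?_⟩
    · rw [mul_assoc, ← mul_assoc (ρ i), ← hc i, mul_assoc, hρρ, ← mul_assoc, hee]
    · rw [hc i, ← mul_assoc, hρρ]
    · rw [mul_assoc, hρρ]
    · have h2 := cl_comp H (X := P) (Y := P) (Z := P) (ρ i) e
      rw [hcl, comp_zero] at h2
      exact h2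
  rw [← mul_one e, ← hρ.sum_eq, Finset.mul_sum]
  exact Finset.sum_eq_zero fun i _ => h1 i

/-- **One half of Murre's conjecture (B) in one codimension for one power of `X` implies that the
motive of `X` is finite-dimensional.** -/
theorem isKimuraFinite_of_half (hg : GradedCommutative H) {π : ℕ → C.A (X.prod X)}
    (hπ : IsCK H X π) {m : ℕ} (hm : BettiAtMost H X m) (hB : HalfOfB H (power X m)) :
    IsKimuraFinite C (ratFam C) X := by
  have hdies : ∀ s : Bool, Dies (ratFam C) s (ofA (parPart s π) (parPart_mem hπ s)) (m + 1) := by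
    intro s
    obtain ⟨p, q, u, v, hu, hv, hp, hq, huv⟩ := kunneth_parPart hπ hm s
    have hP := isPow_prs X m
    have hdim := dim_power X m
    have hE : C.comp (epow (prs X m) (parPart s π)) (epow (prs X m) (parPart s π)) =
        epow (prs X m) (parPart s π) := by
      rw [epow_comp, parPart_idem hπ s]
    let ρ : ℕ → Cor C (power X m) := powCK π m
    have hρ : IsCK H (power X m) ρ := isCK_pow hπ m
    set e := parPart s π with he
    let x : Fin (m + 1) → ((power X m).prod (power X m) ⟶ X) :=
      fun i => fst (power X m) (power X m) ≫ prs X m i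
    let y : Fin (m + 1) → ((power X m).prod (power X m) ⟶ X) :=
      fun i => snd (power X m) (power X m) ≫ prs X m i
    let D0 : C.A ((power X m).prod (power X m)) := gd s (fun _ _ => e) x y
    let D : Cor C (power X m) := D0
    have hcomm : ∀ i, D * ρ i = ρ i * D := gd_comm hπ s m rfl rfl
    have hDD := hP.gd_mul s hE (D := D) rfl
    set N : ℕ := Fintype.card (Equiv.Perm (Fin (m + 1))) with hN
    have hN0 : (N : ℚ) ≠ 0 := by
      have : 0 < N := Fintype.card_pos
      positivity
    have hDD' : D * D = (N : ℚ) • D := by rw [hDD, Nat.cast_smul_eq_nsmul]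
    let p' : Cor C (power X m) := (N : ℚ)⁻¹ • D
    have hpp : p' * p' = p' := by
      simp only [p']
      rw [smul_mul_smul_comm, hDD', smul_smul, mul_assoc, inv_mul_cancel₀ hN0, mul_one]
    have hDm : (D : C.A ((power X m).prod (power X m))) ∈
        C.gr ((power X m).prod (power X m)) (power X m).dim := by
      have h1 := gd_mem s (ofA e (parPart_mem hπ s)) x y
      have h2 : ((m + 1 : ℕ) : ℤ) * X.dim = (power X m).dim := by rw [hdim]; push_cast; ring
      rw [h2] at h1
      exact h1
    have hcl : H.cl D0 = 0 :=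
      cl_gd_eq_zero hg s hu hv hp hq huv (Nat.lt_succ_self m) x y
    have hp0 : p' = 0 := by
      apply eq_zero_of_comm hB hρ
      · exact Submodule.smul_mem _ _ hDm
      · exact hpp
      · change H.cl ((N : ℚ)⁻¹ • D0) = 0
        rw [← one_mul D0, ← smul_mul_assoc, map_mul, hcl, mul_zero]
      · intro i
        simp only [p']
        rw [smul_mul_assoc, hcomm, mul_smul_comm]
    have hD0 : D0 = 0 := by
      have h0 : (N : ℚ)⁻¹ • D0 = 0 := hp0
      rw [← one_smul ℚ D0, ← mul_inv_cancel₀ hN0, mul_smul, h0, smul_zero]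
    intro W x' y'
    obtain ⟨g1, h1⟩ := hP.exists_lift W x'
    obtain ⟨g2, h2⟩ := hP.exists_lift W y'
    have h3 := pull_gd s (Obj.lift g1 g2) (fun _ _ => e) x y
    have h4 : gd s (fun _ _ => e) x y = 0 := hD0
    rw [h4, map_zero] at h3
    have h5 : (fun i => Obj.lift g1 g2 ≫ x i) = x' := by
      funext i
      simp only [x]
      rw [lift_fst_assoc, h1]
    have h6 : (fun i => Obj.lift g1 g2 ≫ y i) = y' := by
      funext i
      simp only [y]
      rw [lift_snd_assoc, h2]
    rw [h5, h6] at h3
    change gd s (fun _ _ => e) x' y' ∈ (⊥ : Submodule ℚ (C.A W))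
    rw [← h3]
    exact Submodule.zero_mem _
  rw [isKimuraFinite_iff]
  refine ⟨ofA (parPart true π) (parPart_mem hπ true), ?_, ⟨m, hdies true⟩, ⟨m, ?_⟩⟩
  · have h1 : toA (ofA (parPart true π) (parPart_mem hπ true) *
        ofA (parPart true π) (parPart_mem hπ true) -
        ofA (parPart true π) (parPart_mem hπ true)) = (0 : C.A (X.prod X)) := by
      rw [map_sub, toA_mul, toA_ofA, parPart_idem hπ, sub_self]
    rw [h1]
    exact Submodule.zero_mem _
  · have h1 : 1 - ofA (parPart true π) (parPart_mem hπ true) =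
        ofA (parPart false π) (parPart_mem hπ false) := by
      apply toA_inj
      rw [map_sub, toA_one, toA_ofA, toA_ofA, ← parPart_add hπ true, Bool.not_true,
        add_sub_cancel_left]
    rw [h1]
    exact hdies false

end Pool.Agent.J4H14.MU
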