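import Pool.Agent.J4H14.MU.C
import Pool.Agent.J4H14.MB.B
import Pool.Agent.J4H14.MB.E

/-!
# Murre's conjecture (B) and finite-dimensionality: the equivalences
-/

set_option autoImplicit false

open CategoryTheory AlgebraicGeometry

universe u v w

namespace Pool.Agent.J4H14.MU

open Pool.Agent.H914 Pool.Agent.H914.VarClass Pool.Agent.H914.VarClass.Obj Pool.Agent.W492.BB
  Pool.Agent.W550.Corr Pool.Agent.TH133 Pool.Agent.TH829.Kim Pool.Agent.Y107 Pool.Agent.Y110
  Pool.Agent.J4H14.MB Pool.Agent.Q73.LS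

set_option linter.unusedSectionVars false

variable {k : Type u} [Field k] {𝒱 : VarClass k} {C : TheoryData.{u, v, 0} 𝒱 ℚ}
  [hC : IsChowProj C] {K : Type w} [Field K]
  {H : WeilTheoryData.{u, v, w} C K} [hH : IsWeilProj H] {X : 𝒱.Obj}

lemma finiteDimensional_iff : FiniteDimensional C X ↔ IsKimuraFinite C (ratFam C) X := by
  unfold FiniteDimensional IsKimuraFinite ratFam
  constructor
  · rintro ⟨e, h1, h2, ⟨n, hn, h3⟩, ⟨m, hm, h4⟩⟩
    refine ⟨e, h1, ?_, ⟨n, hn, fun W x y => ?_⟩, ⟨m, hm, fun W x y => ?_⟩⟩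
    · rw [h2, sub_self]; exact Submodule.zero_mem _
    · rw [h3]; exact Submodule.zero_mem _
    · rw [h4]; exact Submodule.zero_mem _
  · rintro ⟨e, h1, h2, ⟨n, hn, h3⟩, ⟨m, hm, h4⟩⟩
    refine ⟨e, h1, sub_eq_zero.1 ((Submodule.mem_bot ℚ).1 h2), ⟨n, hn, fun W x y => ?_⟩,
      ⟨m, hm, fun W x y => ?_⟩⟩
    · exact (Submodule.mem_bot ℚ).1 (h3 W x y)
    · exact (Submodule.mem_bot ℚ).1 (h4 W x y)

include hC

lemma toA_pow (x : R0 C X) (n : ℕ) : toA (x ^ n) = corPow C (toA x) n := by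
  induction n with
  | zero => rfl
  | succ n ih => rw [pow_succ', toA_mul, ih]; rfl

include hH

/-- Homologically trivial correspondences of finite-dimensional motives are nilpotent. -/
lemma isNilpotent_of_finite (h : FiniteDimensional C X) : MB.IsNilpotent H X := by
  intro γ hγ h0
  obtain ⟨n, hn⟩ := isNilpotent_of_kimura (H := H) (finiteDimensional_iff.1 h) (x := ofA γ hγ) h0
  refine ⟨n, ?_⟩
  have h1 := toA_pow (ofA γ hγ) n
  rw [hn, map_zero] at h1
  exact h1.symm

/-- The vanishing of `π j` on a set of cycles which is stable under `π' j` does not depend on the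
decomposition. -/
lemma act_zero_transfer' (hN : MB.IsNilpotent H X) {π π' : ℕ → C.A (X.prod X)} (hπ : IsCK H X π)
    (hπ' : IsCK H X π') {j : ℕ} {S : C.A X → Prop} (hS : ∀ x, S x → S (C.act (π' j) x))
    (h : ∀ x, S x → C.act (π j) x = 0) {x : C.A X} (hx : S x) : C.act (π' j) x = 0 := by
  let ν : C.A (X.prod X) := C.comp (C.comp (π' j) (dg C X - π j)) (π' j)
  have hν0 : H.cl ν = 0 := cl_zero_of_id hπ' fun a ha => hπ.act_self j a ha
  have hνd : C.Deg X.dim ν :=
    comp_mem0 C (comp_mem0 C (hπ'.deg j) (Submodule.sub_mem _ (dg_mem C X) (hπ.deg j))) (hπ'.deg j)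
  apply eq_zero_of_fixed hN hνd hν0
  change C.act (C.comp (C.comp _ _) _) _ = _
  have h1 : C.act (π' j) (C.act (π' j) x) = C.act (π' j) x := by
    rw [← C.act_comp, hπ'.idem]
  have h2 : C.act (π j) (C.act (π' j) x) = 0 := h _ (hS x hx)
  rw [C.act_comp, C.act_comp, h1, C.act_sub, act_dg, h2, sub_zero, h1]

/-- The vanishing of `π j` on `CH^i(X)` does not depend on the decomposition `π`. -/
lemma act_zero_transfer (hN : MB.IsNilpotent H X) {π π' : ℕ → C.A (X.prod X)} (hπ : IsCK H X π)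
    (hπ' : IsCK H X π') {i j : ℕ} (h : ∀ x ∈ C.gr X i, C.act (π j) x = 0) {x : C.A X}
    (hx : x ∈ C.gr X i) : C.act (π' j) x = 0 :=
  act_zero_transfer' hN hπ hπ' (S := fun x => x ∈ C.gr X i)
    (fun _ hx => act_mem0 C (hπ'.deg j) hx) h hx

lemma cl_act_zero {γ : C.A (X.prod X)} {x : C.A X} (hx : H.cl x = 0) : H.cl (C.act γ x) = 0 := by
  have h1 := cl_actC (H := H) (X := X) γ x
  have h2 : H.cl (C.act γ x) = H.act (H.cl γ) (H.cl x) := h1
  rw [h2, hx]
  exact TheoryData.act_map_zero _ _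

/-- The conjecture (D) for one decomposition in terms of the projectors. -/
lemma conjD_iff {π : ℕ → C.A (X.prod X)} (hπ : IsCK H X π) : ConjD H X π ↔
    (∀ i j : ℕ, 2 * i < j → ∀ x ∈ C.gr X i, C.act (π j) x = 0) ∧
      ∀ (i : ℕ) (x : C.A X), (x ∈ C.gr X i ∧ H.cl x = 0) → C.act (π (2 * i)) x = 0 := by
  have hcl : ∀ (i : ℕ) (x : C.A X), x ∈ C.gr X i → H.cl x ∈ H.gr X (2 * i : ℕ) := by
    intro i x hx
    have := H.cl_mem hx
    push_cast at this ⊢
    exact this
  have hact : ∀ (γ : C.A (X.prod X)) (x : C.A X), H.cl (C.act γ x) = H.act (H.cl γ) (H.cl x) :=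
    fun γ x => cl_actC (H := H) (X := X) γ x
  constructor
  · intro h
    refine ⟨fun i j hij x hx => ?_, fun i x hx => ?_⟩
    · have h1 : H.cl (C.act (π j) x) = 0 := by
        rw [hact]
        exact hπ.act_ne j (2 * i : ℕ) _ (by exact_mod_cast hij.ne) (hcl i x hx)
      have h2 := (h i (C.act (π j) x)).2 ⟨act_mem0 C (hπ.deg j) hx, h1⟩
      rw [hπ.mem_ckFil] at h2
      have h3 := h2.2 j (by omega)
      rwa [← C.act_comp, hπ.idem] at h3
    · have h2 := (h i x).2 hx
      rw [hπ.mem_ckFil] at h2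
      exact h2.2 (2 * i) (by omega)
  · rintro ⟨h1, h2⟩ i x
    rw [hπ.mem_ckFil]
    constructor
    · rintro ⟨hx, h3⟩
      refine ⟨hx, ?_⟩
      have h4 := hact (π (2 * i)) x
      rw [h3 (2 * i) (by omega), map_zero, hπ.act_self (2 * i) _ (hcl i x hx)] at h4
      exact h4.symm
    · rintro ⟨hx, h3⟩
      refine ⟨hx, fun j hj => ?_⟩
      rcases Nat.lt_or_ge (2 * i) j with h4 | h4
      · exact h1 i j h4 x hx
      · obtain rfl : j = 2 * i := by omega
        exact h2 i x ⟨hx, h3⟩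

lemma secondHalf_iff {π : ℕ → C.A (X.prod X)} (hπ : IsCK H X π) : SecondHalf C X π ↔
    ∀ i j : ℕ, j < i → ∀ x ∈ C.gr X i, C.act (π j) x = 0 := by
  constructor
  · intro h i j hij x hx
    exact act_zero_of_B1 (X := X) hπ (h i) hij hx
  · intro h i
    rw [eq_bot_iff]
    intro x hx
    rw [hπ.mem_ckFil] at hx
    rw [Submodule.mem_bot]
    have h1 : x = ∑ j ∈ Finset.range (2 * X.dim + 1), C.act (π j) x := by
      rw [← act_sum, hπ.sum, act_dg]
    rw [h1]
    apply Finset.sum_eq_zero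
    intro j _
    rcases lt_or_ge j i with h2 | h2
    · exact h i j h2 x hx.1
    · exact hx.2 j (by omega)

lemma firstHalf_iff {π : ℕ → C.A (X.prod X)} (hπ : IsCK H X π) : FirstHalf C X π ↔
    ∀ i j : ℕ, 2 * i < j → ∀ x ∈ C.gr X i, C.act (π j) x = 0 := by
  constructor
  · intro h i j hij x hx
    exact act_zero_of_B0 (X := X) hπ (h i) hij hx
  · intro h i
    ext x
    rw [hπ.mem_ckFil]
    exact ⟨fun h' => h'.1, fun hx => ⟨hx, fun j hj => h i j (by omega) x hx⟩⟩

lemma secondHalf_transfer (hN : MB.IsNilpotent H X) {π π' : ℕ → C.A (X.prod X)}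
    (hπ : IsCK H X π) (hπ' : IsCK H X π') (h : SecondHalf C X π) : SecondHalf C X π' := by
  rw [secondHalf_iff hπ] at h
  rw [secondHalf_iff hπ']
  exact fun i j hij x hx => act_zero_transfer hN hπ hπ' (h i j hij) hx

lemma firstHalf_transfer (hN : MB.IsNilpotent H X) {π π' : ℕ → C.A (X.prod X)}
    (hπ : IsCK H X π) (hπ' : IsCK H X π') (h : FirstHalf C X π) : FirstHalf C X π' := by
  rw [firstHalf_iff hπ] at h
  rw [firstHalf_iff hπ']
  exact fun i j hij x hx => act_zero_transfer hN hπ hπ' (h i j hij) hx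

lemma conjD_transfer (hN : MB.IsNilpotent H X) {π π' : ℕ → C.A (X.prod X)}
    (hπ : IsCK H X π) (hπ' : IsCK H X π') (h : ConjD H X π) : ConjD H X π' := by
  rw [conjD_iff hπ] at h
  rw [conjD_iff hπ']
  exact ⟨fun i j hij x hx => act_zero_transfer hN hπ hπ' (h.1 i j hij) hx,
    fun i x hx => act_zero_transfer' hN hπ hπ' (S := fun x => x ∈ C.gr X i ∧ H.cl x = 0)
      (fun _ hx => ⟨act_mem0 C (hπ'.deg _) hx.1, cl_act_zero hx.2⟩) (h.2 i) hx⟩

/-- One half of (B) for one power in one codimension implies finite-dimensionality. -/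
theorem finite_of_half (hg : GradedCommutative H) {m : ℕ} (hX : HasCK H X)
    (hm : BettiAtMost H X m) (hB : HalfOfB H (power X m)) : FiniteDimensional C X := by
  obtain ⟨π, hπ⟩ := hX
  exact finiteDimensional_iff.2 (isKimuraFinite_of_half hg hπ hm hB)

lemma exists_betti (X : 𝒱.Obj) : ∃ m, BettiAtMost H X m := by
  classical
  obtain ⟨m, p, u, v, hu, hv, huv⟩ := exists_kunneth H X
  refine ⟨m, fun i => if Even (p i) then p i else 0, fun i => if Odd (p i) then p i else 1,
    fun i => if Even (p i) then u i else 0, fun i => if Even (p i) then v i else 0,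
    fun i => if Odd (p i) then u i else 0, fun i => if Odd (p i) then v i else 0,
    fun i => ?_, fun i => ?_, ?_⟩
  · dsimp only
    split_ifs with h
    · exact ⟨h, hu i, hv i⟩
    · exact ⟨Even.zero, Submodule.zero_mem _, Submodule.zero_mem _⟩
  · dsimp only
    split_ifs with h
    · exact ⟨h, hu i, hv i⟩
    · exact ⟨odd_one, Submodule.zero_mem _, Submodule.zero_mem _⟩
  · rw [huv, ← Finset.sum_add_distrib]
    apply Finset.sum_congr rfl
    intro i _
    dsimp only
    by_cases h : Even (p i)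
    · rw [if_pos h, if_pos h, if_neg (Int.not_odd_iff_even.2 h), if_neg (Int.not_odd_iff_even.2 h),
        TheoryData.ext_zero_right, add_zero]
    · rw [if_neg h, if_neg h, if_pos (Int.not_even_iff_odd.1 h), if_pos (Int.not_even_iff_odd.1 h),
        TheoryData.ext_zero_right, zero_add]

lemma allFirst_iff : AllDecompositions H (FirstHalf C) ↔ ∀ X : 𝒱.Obj, MurreB0 H X := Iff.rfl

lemma allSecond_iff : AllDecompositions H (SecondHalf C) ↔ ∀ X : 𝒱.Obj, MurreB1 H X := Iff.rfl

lemma allD_iff : AllDecompositions H (ConjD H) ↔ ∀ X : 𝒱.Obj, MurreD H X := Iff.rfl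

/-- The theorem on a class of varieties. -/
theorem firstHalf_all (hg : GradedCommutative H) :
    AllDecompositions H (FirstHalf C) ↔ FiniteAndOne H (FirstHalf C) := by
  constructor
  · intro h X hX
    obtain ⟨m, hm⟩ := exists_betti (H := H) X
    refine ⟨finite_of_half hg hX hm (Or.inl fun Q hQ => h _ Q hQ _), ?_⟩
    obtain ⟨π, hπ⟩ := hX
    exact ⟨π, hπ, h X π hπ⟩
  · intro h X π' hπ'
    obtain ⟨h1, π, hπ, h2⟩ := h X ⟨π', hπ'⟩
    exact firstHalf_transfer (isNilpotent_of_finite h1) hπ hπ' h2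

theorem secondHalf_all (hg : GradedCommutative H) :
    AllDecompositions H (SecondHalf C) ↔ FiniteAndOne H (SecondHalf C) := by
  constructor
  · intro h X hX
    obtain ⟨m, hm⟩ := exists_betti (H := H) X
    refine ⟨finite_of_half hg hX hm (Or.inr fun Q hQ => h _ Q hQ _), ?_⟩
    obtain ⟨π, hπ⟩ := hX
    exact ⟨π, hπ, h X π hπ⟩
  · intro h X π' hπ'
    obtain ⟨h1, π, hπ, h2⟩ := h X ⟨π', hπ'⟩
    exact secondHalf_transfer (isNilpotent_of_finite h1) hπ hπ' h2

/-- (D) implies the first half of (B). -/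
lemma firstHalf_of_D (h : AllDecompositions H (ConjD H)) : AllDecompositions H (FirstHalf C) :=
  fun _ π hπ => (firstHalf_iff hπ).2 ((conjD_iff hπ).1 (h _ π hπ)).1

theorem conjD_all (hg : GradedCommutative H) :
    AllDecompositions H (ConjD H) ↔ FiniteAndOne H (ConjD H) := by
  constructor
  · intro h X hX
    refine ⟨((firstHalf_all hg).1 (firstHalf_of_D h) X hX).1, ?_⟩
    obtain ⟨π, hπ⟩ := hX
    exact ⟨π, hπ, h X π hπ⟩
  · intro h X π' hπ'
    obtain ⟨h1, π, hπ, h2⟩ := h X ⟨π', hπ'⟩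
    exact conjD_transfer (isNilpotent_of_finite h1) hπ hπ' h2

/-- Under the Lefschetz standard conjecture the second half is finite-dimensionality. -/
theorem secondHalf_iff_finite (hg : GradedCommutative H)
    (hL : ∀ X : 𝒱.Obj, HasCK H X → Lefschetz H X) :
    AllDecompositions H (SecondHalf C) ↔ ∀ X : 𝒱.Obj, HasCK H X → FiniteDimensional C X := by
  constructor
  · intro h X hX
    exact ((secondHalf_all hg).1 h X hX).1
  · intro h X π hπ
    exact murreB1_of (isNilpotent_of_finite (h X ⟨π, hπ⟩)) (hL X ⟨π, hπ⟩) π hπ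

theorem tfae_all (hg : GradedCommutative H)
    (hL : ∀ X : 𝒱.Obj, HasCK H X → Lefschetz H X) :
    [AllDecompositions H (FirstHalf C) ∧ AllDecompositions H (SecondHalf C),
      AllDecompositions H (FirstHalf C), ∀ X : 𝒱.Obj, MurreC H X,
      FiniteAndOne H (FirstHalf C)].TFAE := by
  tfae_have 1 → 2 := fun h => h.1
  tfae_have 2 → 3 := fun h X => murreC_of_B0 X (h _)
  tfae_have 3 → 4 := fun h => (firstHalf_all hg).1 fun X =>
    murreB0_of_C0 X fun π π' hπ hπ' i => h X π π' hπ hπ' i 0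
  tfae_have 4 → 1 := fun h => ⟨(firstHalf_all hg).2 h,
    (secondHalf_iff_finite hg hL).2 fun X hX => (h X hX).1⟩
  tfae_finish

end Pool.Agent.J4H14.MU
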