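import Pool.Agent.J4H14.MU.D
import Mathlib.RingTheory.Idempotents

/-!
# Existence of Chow-Kunneth decompositions
-/

set_option autoImplicit false

open CategoryTheory AlgebraicGeometry

universe u v w

namespace Pool.Agent.J4H14.MU

open Pool.Agent.H914 Pool.Agent.H914.VarClass Pool.Agent.H914.VarClass.Obj Pool.Agent.W492.BB
  Pool.Agent.W550.Corr Pool.Agent.TH133 Pool.Agent.TH829.Kim Pool.Agent.Y107 Pool.Agent.Y110
  Pool.Agent.J4H14.MB Pool.Agent.Q73.LS

set_option linter.unusedSectionVars false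

variable {k : Type u} [Field k] {𝒱 : VarClass k} {C : TheoryData.{u, v, 0} 𝒱 ℚ}
  [hC : IsChowProj C] {K : Type w} [Field K]
  {H : WeilTheoryData.{u, v, w} C K} [hH : IsWeilProj H] {X : 𝒱.Obj}

/-- `γ` acts on the cohomology as the projection to the degrees satisfying `S`. -/
def Proj (H : WeilTheoryData.{u, v, w} C K) (S : ℤ → Prop) (γ : C.A (X.prod X)) : Prop :=
  γ ∈ C.gr (X.prod X) X.dim ∧ ∀ (m : ℤ) (a : H.A X), a ∈ H.gr X m →
    (S m → H.act (H.cl γ) a = a) ∧ (¬ S m → H.act (H.cl γ) a = 0)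

include hC hH

lemma Proj.sub {S T : ℤ → Prop} {γ δ : C.A (X.prod X)} (h : Proj H S γ) (h' : Proj H T δ)
    (hTS : ∀ m, T m → S m) : Proj H (fun m => S m ∧ ¬ T m) (γ - δ) := by
  refine ⟨Submodule.sub_mem _ h.1 h'.1, fun m a ha => ?_⟩
  have e : H.act (H.cl (γ - δ)) a = H.act (H.cl γ) a - H.act (H.cl δ) a := by
    rw [map_sub, H.act_sub]
  rw [e]
  by_cases h1 : T m
  · rw [(h.2 m a ha).1 (hTS m h1), (h'.2 m a ha).1 h1, sub_self]
    exact ⟨fun h2 => absurd h1 h2.2, fun _ => rfl⟩
  · rw [(h'.2 m a ha).2 h1, sub_zero]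
    exact ⟨fun h2 => (h.2 m a ha).1 h2.1, fun h2 => (h.2 m a ha).2 fun h3 => h2 ⟨h3, h1⟩⟩

lemma Proj.comp {S T : ℤ → Prop} {γ δ : C.A (X.prod X)} (h : Proj H S γ) (h' : Proj H T δ) :
    Proj H (fun m => S m ∧ T m) (C.comp γ δ) := by
  refine ⟨comp_mem0 C h.1 h'.1, fun m a ha => ?_⟩
  rw [actH_comp]
  constructor
  · rintro ⟨h1, h2⟩
    rw [(h.2 m a ha).1 h1, (h'.2 m a ha).1 h2]
  · intro h1
    by_cases h2 : S m
    · rw [(h.2 m a ha).1 h2]
      exact (h'.2 m a ha).2 fun h3 => h1 ⟨h2, h3⟩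
    · rw [(h.2 m a ha).2 h2]
      exact TheoryData.act_map_zero _ _

lemma Proj.congr {S T : ℤ → Prop} {γ : C.A (X.prod X)} (h : Proj H S γ) (hST : ∀ m, S m ↔ T m) :
    Proj H T γ :=
  ⟨h.1, fun m a ha => ⟨fun h1 => (h.2 m a ha).1 ((hST m).2 h1),
    fun h1 => (h.2 m a ha).2 fun h2 => h1 ((hST m).1 h2)⟩⟩

lemma proj_dg : Proj H (fun _ => True) (dg C X) :=
  ⟨dg_mem C X, fun _ a _ => ⟨fun _ => actH_dg H a, fun h => absurd trivial h⟩⟩

/-- The step of the construction of the Kunneth projectors. -/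
lemma proj_step (hB : LefschetzStandard H X) {n : ℕ} (hn : n ≤ X.dim) {A B : C.A (X.prod X)}
    (hb : Proj H (fun m => (n : ℤ) ≤ m) B) (ha : Proj H (fun m => m ≤ 2 * X.dim - n) A) :
    (∃ p : C.A (X.prod X), Proj H (fun m => m = n) p) ∧
      ∃ p : C.A (X.prod X), Proj H (fun m => m = 2 * X.dim - n) p := by
  obtain ⟨f, g, hf, hg, hgf, hfg⟩ := hB n hn
  have hf' : f ∈ C.gr (X.prod X) (X.dim + ((X.dim : ℤ) - n)) := by
    have h1 : f ∈ C.gr (X.prod X) (2 * X.dim - n : ℕ) := hf
    have e : ((2 * X.dim - n : ℕ) : ℤ) = X.dim + ((X.dim : ℤ) - n) := by omega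
    rwa [e] at h1
  have hg' : g ∈ C.gr (X.prod X) (X.dim + ((n : ℤ) - X.dim)) := by
    have h1 : g ∈ C.gr (X.prod X) (n : ℤ) := hg
    have e : (n : ℤ) = X.dim + ((n : ℤ) - X.dim) := by ring
    rwa [← e]
  refine ⟨⟨C.comp (C.comp (C.comp B f) A) g, ?_, fun m a h => ?_⟩,
    ⟨C.comp (C.comp (C.comp A g) B) f, ?_, fun m a h => ?_⟩⟩
  · have h1 := comp_mem C (comp_mem C (comp_mem C (e := 0) (by rw [add_zero]; exact hb.1) hf')
      (e' := 0) (by rw [add_zero]; exact ha.1)) hg'
    have e : (X.dim : ℤ) + (0 + ((X.dim : ℤ) - n) + 0 + ((n : ℤ) - X.dim)) = X.dim := by ring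
    rwa [e] at h1
  · rw [actH_comp, actH_comp, actH_comp]
    by_cases h1 : (n : ℤ) ≤ m
    · rw [(hb.2 m a h).1 h1]
      have h2 := actH_mem H hf' h
      by_cases h3 : m = n
      · subst h3
        rw [(ha.2 _ _ h2).1 (by omega)]
        exact ⟨fun _ => hgf a h, fun h4 => absurd rfl h4⟩
      · rw [(ha.2 _ _ h2).2 (by omega), TheoryData.act_map_zero]
        exact ⟨fun h4 => absurd h4 h3, fun _ => rfl⟩
    · rw [(hb.2 m a h).2 h1, TheoryData.act_map_zero, TheoryData.act_map_zero,
        TheoryData.act_map_zero]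
      exact ⟨fun h4 => absurd h4.ge h1, fun _ => rfl⟩
  · have h1 := comp_mem C (comp_mem C (comp_mem C (e := 0) (by rw [add_zero]; exact ha.1) hg')
      (e' := 0) (by rw [add_zero]; exact hb.1)) hf'
    have e : (X.dim : ℤ) + (0 + ((n : ℤ) - X.dim) + 0 + ((X.dim : ℤ) - n)) = X.dim := by ring
    rwa [e] at h1
  · rw [actH_comp, actH_comp, actH_comp]
    by_cases h1 : m ≤ 2 * X.dim - n
    · rw [(ha.2 m a h).1 h1]
      have h2 := actH_mem H hg' h
      by_cases h3 : m = 2 * X.dim - n
      · rw [(hb.2 _ _ h2).1 (by omega)]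
        refine ⟨fun _ => hfg a ?_, fun h4 => absurd h3 h4⟩
        have e : ((2 * X.dim - n : ℕ) : ℤ) = m := by omega
        change a ∈ H.gr X _
        rw [e]
        exact h
      · rw [(hb.2 _ _ h2).2 (by omega), TheoryData.act_map_zero]
        exact ⟨fun h4 => absurd h4 h3, fun _ => rfl⟩
    · rw [(ha.2 m a h).2 h1, TheoryData.act_map_zero, TheoryData.act_map_zero,
        TheoryData.act_map_zero]
      exact ⟨fun h4 => absurd h4.le h1, fun _ => rfl⟩

lemma proj_low_high (hB : LefschetzStandard H X) {n : ℕ} (hn : n ≤ X.dim) :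
    (∃ B : C.A (X.prod X), Proj H (fun m => (n : ℤ) ≤ m) B) ∧
      ∃ A : C.A (X.prod X), Proj H (fun m => m ≤ 2 * X.dim - n) A := by
  induction n with
  | zero =>
    refine ⟨⟨dg C X, dg_mem C X, fun m a h => ⟨fun _ => actH_dg H a, fun h1 => ?_⟩⟩,
      ⟨dg C X, dg_mem C X, fun m a h => ⟨fun _ => actH_dg H a, fun h1 => ?_⟩⟩⟩
    · rw [H.gr_neg X m (by push_cast at h1; omega), Submodule.mem_bot] at h
      rw [h]
      exact TheoryData.act_map_zero _ _
    · rw [gr_top H (by push_cast at h1; omega), Submodule.mem_bot] at h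
      rw [h]
      exact TheoryData.act_map_zero _ _
  | succ n ih =>
    obtain ⟨⟨B, hb⟩, ⟨A, ha⟩⟩ := ih (by omega)
    obtain ⟨⟨p, hp⟩, ⟨q, hq⟩⟩ := proj_step hB (by omega) hb ha
    refine ⟨⟨B - p, (hb.sub hp fun m h => h.ge).congr fun m => ?_⟩,
      ⟨A - q, (ha.sub hq fun m h => h.le).congr fun m => ?_⟩⟩
    · push_cast
      omega
    · push_cast
      omega

/-- The Kunneth projectors are algebraic. -/
lemma exists_proj (hB : LefschetzStandard H X) (i : ℕ) :
    ∃ p : C.A (X.prod X), Proj H (fun m => m = i) p := by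
  rcases Nat.lt_or_ge (2 * X.dim) i with hi | hi
  · refine ⟨0, Submodule.zero_mem _, fun m a h => ⟨fun h1 => ?_, fun _ => actH_zero H a⟩⟩
    rw [gr_top H (by omega), Submodule.mem_bot] at h
    rw [h]
    exact actH_zero H 0
  rcases Nat.lt_or_ge X.dim i with h1 | h1
  · obtain ⟨⟨B, hb⟩, ⟨A, ha⟩⟩ := proj_low_high hB (n := 2 * X.dim - i) (by omega)
    obtain ⟨-, ⟨p, hp⟩⟩ := proj_step hB (by omega) hb ha
    exact ⟨p, hp.congr fun m => by omega⟩
  · obtain ⟨⟨B, hb⟩, ⟨A, ha⟩⟩ := proj_low_high hB h1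
    exact (proj_step hB h1 hb ha).1

/-- A variety satisfying the Lefschetz standard conjecture whose homologically trivial
correspondences are nilpotent has a Chow-Kunneth decomposition. -/
theorem hasCK_of_nilpotent (hN : MB.IsNilpotent H X) (hB : LefschetzStandard H X) :
    HasCK H X := by
  classical
  choose P hP using exists_proj (H := H) hB
  let F : cor0 C X →+* Module.End K (H.A X) := (actH C X H).comp (cor0 C X).toSubring.subtype
  let Q : Fin (2 * X.dim + 1) → cor0 C X := fun i => ⟨P i, (hP i).1⟩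
  let e : Fin (2 * X.dim + 1) → Module.End K (H.A X) := fun i => F (Q i)
  have hFP : ∀ (i : Fin (2 * X.dim + 1)) (m : ℤ) (a : H.A X), a ∈ H.gr X m →
      e i a = if m = i then a else 0 := by
    intro i m a ha
    change H.act (H.cl (P i)) a = _
    split_ifs with h
    · exact ((hP i).2 m a ha).1 h
    · exact ((hP i).2 m a ha).2 h
  have hker : ∀ x ∈ RingHom.ker F, IsNilpotent x := by
    intro x hx
    have h0 : H.cl (toA x) = 0 := by
      apply hom_zero_of_act H
      intro a
      have h1 : F x = 0 := hx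
      exact congrArg (fun T : Module.End K (H.A X) => T a) h1
    obtain ⟨n, hn⟩ := hN (toA x) x.2 h0
    refine ⟨n, toA_inj ?_⟩
    rw [toA_pow, hn, map_zero]
  have he : CompleteOrthogonalIdempotents e := by
    refine ⟨⟨fun i => ?_, fun i j hij => ?_⟩, ?_⟩
    · apply ext_gr H
      intro m a ha
      rw [Module.End.mul_apply, hFP i m a ha]
      split_ifs with h
      · rw [hFP i m a ha, if_pos h]
      · rw [map_zero]
    · apply ext_gr H
      intro m a ha
      rw [Module.End.mul_apply, hFP j m a ha]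
      split_ifs with h
      · rw [hFP i m a ha, if_neg]
        · rfl
        · intro h2
          apply hij
          apply Fin.ext
          omega
      · rw [map_zero]; rfl
    · apply ext_gr H
      intro m a ha
      rw [LinearMap.sum_apply, Finset.sum_congr rfl (fun i _ => hFP i m a ha)]
      change _ = a
      by_cases ha0 : a = 0
      · subst ha0
        simp
      have h1 := nonneg_of_mem H ha ha0
      have h2 : m ≤ 2 * X.dim := by
        by_contra h3
        rw [gr_top H (by omega), Submodule.mem_bot] at ha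
        exact ha0 ha
      obtain ⟨l, rfl⟩ := Int.eq_ofNat_of_zero_le h1
      rw [Finset.sum_eq_single (⟨l, by omega⟩ : Fin (2 * X.dim + 1))]
      · rw [if_pos rfl]
      · intro b _ hb
        rw [if_neg]
        intro h3
        apply hb
        apply Fin.ext
        change (b : ℕ) = l
        omega
      · intro h3
        exact absurd (Finset.mem_univ _) h3
  obtain ⟨e', he', hFe⟩ := CompleteOrthogonalIdempotents.lift_of_isNilpotent_ker F hker he
    (fun i => ⟨Q i, rfl⟩)
  have hFe' : ∀ i, F (e' i) = e i := fun i => congrFun hFe i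
  let π : ℕ → Cor C X := fun i => if h : i < 2 * X.dim + 1 then (e' ⟨i, h⟩ : Cor C X) else 0
  refine ⟨π, isCK_of ?_ ?_ ?_ ?_ ?_⟩
  · intro i
    simp only [π]
    split_ifs with h
    · exact (e' ⟨i, h⟩).2
    · exact (cor0 C X).zero_mem
  · intro i hi
    simp only [π]
    rw [dif_neg (by omega)]
  · intro i j
    simp only [π]
    by_cases hi : i < 2 * X.dim + 1
    · by_cases hj : j < 2 * X.dim + 1
      · rw [dif_pos hi, dif_pos hj]
        by_cases hij : i = j
        · subst hij
          rw [if_pos rfl]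
          exact congrArg Subtype.val (he'.idem ⟨i, hi⟩)
        · rw [if_neg hij]
          exact congrArg Subtype.val (he'.ortho (i := ⟨i, hi⟩) (j := ⟨j, hj⟩)
            (fun h => hij (congrArg Fin.val h)))
      · rw [dif_neg hj, mul_zero, if_neg (by omega)]
    · rw [dif_neg hi, zero_mul]
      split_ifs <;> rfl
  · rw [Finset.sum_range]
    have h1 : ∀ i : Fin (2 * X.dim + 1), π i = (e' i : Cor C X) := by
      intro i
      simp only [π]
      rw [dif_pos i.2]
    rw [Finset.sum_congr rfl (fun i _ => h1 i)]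
    have h2 := congrArg Subtype.val he'.complete
    rw [AddSubmonoidClass.coe_finsetSum] at h2
    exact h2
  · intro i m a ha
    simp only [π]
    by_cases hi : i < 2 * X.dim + 1
    · rw [dif_pos hi]
      have h1 : actH C X H (e' ⟨i, hi⟩ : Cor C X) = F (e' ⟨i, hi⟩) := rfl
      rw [h1, hFe', hFP _ m a ha]
    · rw [dif_neg hi, map_zero]
      split_ifs with h
      · rw [gr_top H (by omega), Submodule.mem_bot] at ha
        rw [ha]; rfl
      · rfl

/-- Under the Lefschetz standard conjecture, the existence of Chow-Kunneth decompositions and the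
second half of (B) are equivalent to finite-dimensionality. -/
theorem hasCK_and_secondHalf_iff_finite (hg : GradedCommutative H)
    (hL : ∀ X : 𝒱.Obj, Lefschetz H X) :
    ((∀ X : 𝒱.Obj, HasCK H X) ∧ AllDecompositions H (SecondHalf C)) ↔
      ∀ X : 𝒱.Obj, FiniteDimensional C X := by
  have h1 := secondHalf_iff_finite hg fun X _ => hL X
  constructor
  · intro h X
    exact h1.1 h.2 X (h.1 X)
  · intro h
    exact ⟨fun X => hasCK_of_nilpotent (isNilpotent_of_finite (h X)) (hL X),
      h1.2 fun X _ => h X⟩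

end Pool.Agent.J4H14.MU
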